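import Mathlib
import Pool.Agent.MP_a48a54_an.Defs
import Pool.Agent.MP_a48a54_an.EllMain
import Pool.Agent.MP_a48a54_an.EllNotParabolic

/-!
Q2 of MP_a48a54_an: there is an ergodic exchange of three intervals with a non-elementary piecewise
constant cocycle of elliptic type, which moreover is not of parabolic type.
-/

open MeasureTheory
open scoped MatrixGroups

namespace Pool.Agent.Results.MP_a48a54_an.EllipticExists

open Pool.Agent.MP_a48a54_an

/-- There are an ergodic interval exchange `T` on three intervals, whose two interior cut points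
are genuine discontinuities (neighbouring translation lengths differ), and matrices
`M 0, M 1, M 2` generating a Zariski dense subgroup of `SL(2,ℝ)`, such that the cocycle equal to
`M j` on the `j`-th interval is of elliptic type over `T`, and not of parabolic type. -/
theorem result : ∃ (c t : ℕ → ℝ) (T : ℝ → ℝ) (M : ℕ → SL(2, ℝ)) (ρ : ℝ → SL(2, ℝ)),
    IsIET 3 c T ∧ (∀ j < 3, ∀ x ∈ Set.Ico (c j) (c (j + 1)), T x = x + t j) ∧
      t 0 ≠ t 1 ∧ t 1 ≠ t 2 ∧ Ergodic T leb ∧ IsPiecewiseConst 3 c M ρ ∧ NonElementary 3 M ∧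
      IsEllipticType T ρ ∧ ¬ IsParabolicType T ρ := by
  have hS := Ell.SS_pos
  have hSA := Ell.SS_lt_AA
  have hA := Ell.AA_lt_one
  have t0 : Ell.t3 Ell.AA Ell.SS 0 = Ell.AA := by simp [Ell.t3]
  have t1 : Ell.t3 Ell.AA Ell.SS 1 = 2 * Ell.AA - 1 - Ell.SS := by simp [Ell.t3]
  have t2 : Ell.t3 Ell.AA Ell.SS 2 = Ell.AA - 1 - Ell.SS := by simp [Ell.t3]
  refine ⟨Ell.c3 Ell.AA Ell.SS, Ell.t3 Ell.AA Ell.SS, Ell.T3 Ell.AA Ell.SS, Ell.Me, Ell.rho,
    Ell.isIET_T, fun j hj x hx => Ell.T3_eq _ _ hS hj hx, ?_, ?_, Ell.ergodic_T,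
    Ell.isPiecewiseConst_rho, Ell.nonElementary_Me, Ell.isEllipticType_rho,
    Ell.not_isParabolicType_rho⟩
  · rw [t0, t1]; intro h; linarith
  · rw [t1, t2]; intro h; linarith

end Pool.Agent.Results.MP_a48a54_an.EllipticExists
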