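import Mathlib
import Pool.Agent.MP_a48a54_an.Defs
import Pool.Agent.MP_a48a54_an.Parabolic

/-!
Q1 of MP_a48a54_an: over every irrational rotation, viewed as the exchange of the two intervals
`[0, 1-α)` and `[1-α, 1)`, there is a non-elementary piecewise constant cocycle of parabolic type.
-/

open MeasureTheory
open scoped MatrixGroups

namespace Pool.Agent.Results.MP_a48a54_an.ParabolicExists

open Pool.Agent.MP_a48a54_an

/-- For every irrational `α ∈ (0,1)` the exchange `rot α` of the two intervals `[0, 1-α)` and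
`[1-α, 1)` is an ergodic interval exchange, and there are matrices `M 0, M 1 ∈ SL(2,ℝ)` generating a
Zariski dense subgroup such that the cocycle equal to `M 0` on `[0, 1-α)` and to `M 1` on `[1-α, 1)`
is of parabolic type over `rot α`. -/
theorem result (α : ℝ) (hα : Irrational α) (h0 : 0 < α) (h1 : α < 1) :
    IsIET 2 (cuts α) (rot α) ∧ Ergodic (rot α) leb ∧
      ∃ (M : ℕ → SL(2, ℝ)) (ρ : ℝ → SL(2, ℝ)),
        IsPiecewiseConst 2 (cuts α) M ρ ∧ NonElementary 2 M ∧ IsParabolicType (rot α) ρ := by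
  refine ⟨isIET_rot h0 h1, ergodic_rot hα h0 h1, ?_⟩
  obtain ⟨s, hs, hs1, L, hL, hL1, hLa, hpos, hlt⟩ := exists_section hα h0 h1
  refine ⟨Mm s hs, rhom α s hs, ?_, nonElementary_Mm s hs,
    parabolic_type h0 h1 hs hs1 hL hL1 hLa hpos hlt⟩
  intro j hj x hx
  interval_cases j
  · rw [cuts_zero, zero_add, cuts_one] at hx
    simp [rhom, Mm, hx.2]
  · rw [cuts_one, show 1 + 1 = 2 from rfl, cuts_two] at hx
    simp [rhom, Mm, not_lt.mpr hx.1]

end Pool.Agent.Results.MP_a48a54_an.ParabolicExists
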